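import Pool.Agent.Lib.MP_b1a3a4_al.MVS.TH.Iface

/-!
# Project MVS, part V, module FILLI (13.10)
-/

set_option linter.all false

namespace Pool.Agent.Lib.MP_b1a3a4_al.MVS.TH.H62

open Finsupp

theorem mem_bd {q : ℕ} {x : Cu q} {j : Fin q} (h : x j = 0 ∨ x j = 1) :
    x ∈ Cube.boundary (Fin q) := ⟨j, h⟩

/-- the map on the boundary of `I × I^q` -/
noncomputable def bdf {Z : Type} {q : ℕ} [TopologicalSpace Z] (f₀ f₁ : Cu q → Z)
    (g : Cu q → C(unitInterval, Z)) (z : Cu (q + 1)) : Z := by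
  classical
  exact if z 0 = 0 then f₀ (rem 0 z) else if z 0 = 1 then f₁ (rem 0 z) else g (rem 0 z) (z 0)

theorem bdf_eq {Z : Type} {q : ℕ} [TopologicalSpace Z] (f₀ f₁ : Cu q → Z)
    (g : Cu q → C(unitInterval, Z)) (z : Cu (q + 1)) (h0 : g (rem 0 z) 0 = f₀ (rem 0 z))
    (h1 : g (rem 0 z) 1 = f₁ (rem 0 z)) : bdf f₀ f₁ g z = g (rem 0 z) (z 0) := by
  unfold bdf
  by_cases hz0 : z 0 = 0
  · rw [if_pos hz0, hz0, h0]
  · rw [if_neg hz0]
    by_cases hz1 : z 0 = 1
    · rw [if_pos hz1, hz1, h1]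
    · rw [if_neg hz1]

theorem bdf_zero {Z : Type} {q : ℕ} [TopologicalSpace Z] (f₀ f₁ : Cu q → Z)
    (g : Cu q → C(unitInterval, Z)) (x : Cu q) : bdf f₀ f₁ g (fi 0 false x) = f₀ x := by
  unfold bdf
  rw [if_pos (by simp [fi])]
  simp [fi]

theorem bdf_one {Z : Type} {q : ℕ} [TopologicalSpace Z] (f₀ f₁ : Cu q → Z)
    (g : Cu q → C(unitInterval, Z)) (x : Cu q) : bdf f₀ f₁ g (fi 0 true x) = f₁ x := by
  unfold bdf
  rw [if_neg (by simp [fi]), if_pos (by simp [fi])]
  simp [fi]

theorem filli (h1 : FamStatement) : FilliStatement := by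
  intro Z _ q A B hFill f₀ f₁ g hf₀ hf₁ hA₀ hA₁ hg hgA
  have hside : ∀ (j : Fin q) (ε : Bool) (x : Cu q),
      rem 0 (fi j.succ ε x) ∈ Cube.boundary (Fin q) := by
    intro j ε x
    refine mem_bd (j := j) ?_
    have : rem 0 (fi j.succ ε x) j = ev ε := by
      simp [fi, rem, Fin.succAbove_zero]
    rw [this]
    cases ε
    · exact Or.inl rfl
    · exact Or.inr rfl
  have hsv : ∀ z : Cu (q + 1), rem 0 z ∈ Cube.boundary (Fin q) →
      bdf f₀ f₁ g z = g (rem 0 z) (z 0) := fun z hz =>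
    bdf_eq f₀ f₁ g z (hgA _ hz).2.1 (hgA _ hz).2.2
  have hcont : ContinuousOn (bdf f₀ f₁ g) (Cube.boundary (Fin (q + 1))) := by
    rw [h1.1 Z q (bdf f₀ f₁ g)]
    intro i ε
    refine Fin.cases ?_ (fun j => ?_) i
    · cases ε
      · simp only [bdf_zero]
        exact hf₀
      · simp only [bdf_one]
        exact hf₁
    · have e : (fun x => bdf f₀ f₁ g (fi j.succ ε x)) =
          fun x => g (rem 0 (fi j.succ ε x)) (fi j.succ ε x 0) := by
        funext x
        exact hsv _ (hside j ε x)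
      rw [e]
      have c1 : Continuous (fun x : Cu q => g (rem 0 (fi j.succ ε x))) :=
        hg.comp_continuous ((continuous_rem 0).comp (continuous_fi j.succ ε)) (hside j ε)
      have c2 : Continuous (fun x : Cu q => fi j.succ ε x 0) :=
        (continuous_apply 0).comp (continuous_fi j.succ ε)
      exact c1.eval c2
  have hval : ∀ z ∈ Cube.boundary (Fin (q + 1)), bdf f₀ f₁ g z ∈ A := by
    intro z hz
    rw [mem_boundary_iff] at hz
    obtain ⟨i, ε, x, rfl⟩ := hz
    revert x
    refine Fin.cases ?_ (fun j => ?_) i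
    · intro x
      cases ε
      · rw [bdf_zero]; exact hA₀ x
      · rw [bdf_one]; exact hA₁ x
    · intro x
      rw [hsv _ (hside j ε x)]
      exact (hgA _ (hside j ε x)).1 _
  obtain ⟨G, hG, hGB, hGb⟩ := (fills_iff q A B).1 hFill (bdf f₀ f₁ g) ⟨hcont, hval⟩
  have hc : Continuous (fun p : Cu q × unitInterval => G (ins 0 p.2 p.1)) := by
    refine hG.comp ?_
    refine continuous_pi fun j => ?_
    refine Fin.cases ?_ (fun k => ?_) j
    · simp only [ins_same]
      exact continuous_snd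
    · have e : ∀ p : Cu q × unitInterval, ins 0 p.2 p.1 k.succ = p.1 k := by
        intro p
        have := ins_succAbove 0 p.2 p.1 k
        rwa [Fin.succAbove_zero] at this
      simp only [e]
      exact (continuous_apply k).comp continuous_fst
  refine ⟨ContinuousMap.curry ⟨_, hc⟩, (ContinuousMap.curry ⟨_, hc⟩).continuous, ?_, ?_, ?_, ?_⟩
  · intro x s
    exact hGB _
  · intro x
    change G (ins 0 0 x) = f₀ x
    have := hGb (fi 0 false x) (fi_mem_boundary 0 false x)
    rw [bdf_zero] at this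
    exact this
  · intro x
    change G (ins 0 1 x) = f₁ x
    have := hGb (fi 0 true x) (fi_mem_boundary 0 true x)
    rw [bdf_one] at this
    exact this
  · intro x hx
    ext s
    change G (ins 0 s x) = g x s
    have hb : ins 0 s x ∈ Cube.boundary (Fin (q + 1)) := by
      obtain ⟨j, hj⟩ := hx
      refine mem_bd (j := j.succ) ?_
      have := ins_succAbove 0 s x j
      rw [Fin.succAbove_zero] at this
      rw [this]
      exact hj
    rw [hGb _ hb, hsv _ (by rw [rem_ins]; exact hx), rem_ins, ins_same]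

end Pool.Agent.Lib.MP_b1a3a4_al.MVS.TH.H62
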